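import Pool.Agent.Helper74.UNI.CoreU

/-!
# UNI*: the core with a weaker decay hypothesis

`dec` has the prefactor `exp (δ L)` with a small `δ`, and is needed for `r₀ ≤ r ≤ R` only.
-/

set_option autoImplicit false

namespace Pool.Agent.Helper8.UNI

open Polynomial EVC Pool.Agent.Helper74.EV4 Pool.Agent.Helper74.UNI
open Pool.Agent.Helper3.E4 (wt_pos)

/-- The input of the core: decay up to a factor `exp (δ L)`. -/
structure HypV (b T κ r₀ R δ : ℝ) (L : ℕ) (P : ℝ[X]) : Prop extends EVC.Nice L P where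
  dist : ∀ ρ ∈ EVC.Z P, ∀ r : ℝ, r₀ ≤ r → b * (r + ‖ρ‖) ≤ ‖(r : ℂ) - ρ‖
  far : ∀ ρ ∈ EVC.Z P, ‖ρ‖ ≤ T
  up : P.eval 1 ≤ 4 ^ L
  dec : ∀ r θ : ℝ, r₀ ≤ r → r ≤ R → |θ| ≤ Real.pi →
    ‖aeval (EVC.pt r θ) P‖ ≤ Real.exp (δ * L - κ * L * wt r * (1 - Real.cos θ)) * P.eval r

/-- The input of the core without decay, but with the lower bound of the variance. -/
structure HypW (b T κ r₀ R : ℝ) (L : ℕ) (P : ℝ[X]) : Prop extends EVC.Nice L P where
  dist : ∀ ρ ∈ EVC.Z P, ∀ r : ℝ, r₀ ≤ r → b * (r + ‖ρ‖) ≤ ‖(r : ℂ) - ρ‖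
  far : ∀ ρ ∈ EVC.Z P, ‖ρ‖ ≤ T
  up : P.eval 1 ≤ 4 ^ L
  var : ∀ r : ℝ, r₀ ≤ r → r ≤ R → κ * L * wt r ≤ V P r

section

variable {b T κ r₀ R : ℝ}

theorem norm_p_leV (hA : AdmU b T κ r₀) {P : ℝ[X]}
    (hd : ∀ ρ ∈ EVC.Z P, ∀ r : ℝ, r₀ ≤ r → b * (r + ‖ρ‖) ≤ ‖(r : ℂ) - ρ‖) {r : ℝ} (hr : 0 < r) (hrr : r₀ ≤ r)
    {ρ : ℂ} (hρ : ρ ∈ Z P) : ‖p r ρ‖ ≤ 1 / b := by
  have h1 := hd ρ hρ r hrr
  have hb := hA.hb
  have h2 : b * r ≤ ‖(r : ℂ) - ρ‖ := by
    refine le_trans ?_ h1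
    have := norm_nonneg ρ
    nlinarith
  have h3 := lt_of_lt_of_le (by positivity : 0 < b * r) h2
  unfold p
  rw [norm_div, Complex.norm_real, Real.norm_of_nonneg hr.le, div_le_div_iff₀ h3 hb]
  linarith

/-- the second absolute moment is at most linear -/
theorem W_le_V (hA : AdmU b T κ r₀) {L : ℕ} {P : ℝ[X]} (hN : EVC.Nice L P)
    (hd : ∀ ρ ∈ EVC.Z P, ∀ r : ℝ, r₀ ≤ r → b * (r + ‖ρ‖) ≤ ‖(r : ℂ) - ρ‖) {r : ℝ}
    (hr : 0 < r) (hrr : r₀ ≤ r) : W P r ≤ 1 / b * (1 + 1 / b) * L := by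
  have hb := hA.hb
  have h1 : ∀ ρ ∈ Z P, ‖p r ρ * (1 - p r ρ)‖ ≤ 1 / b * (1 + 1 / b) := by
    intro ρ hρ
    have h2 := norm_p_leV hA hd hr hrr hρ
    have h3 : ‖1 - p r ρ‖ ≤ 1 + 1 / b := by
      refine (norm_sub_le _ _).trans ?_
      rw [norm_one]
      linarith
    rw [norm_mul]
    exact mul_le_mul h2 h3 (norm_nonneg _) (by positivity)
  have h2 : W P r ≤ ((Z P).map fun _ => 1 / b * (1 + 1 / b)).sum := by
    unfold W
    exact Multiset.sum_map_le_sum_map _ _ h1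
  rw [Multiset.map_const', Multiset.sum_replicate, nsmul_eq_mul] at h2
  have h3 := Pool.Agent.Helper3.E4.card_le hN
  have h4 : (0 : ℝ) ≤ (Z P).card := Nat.cast_nonneg _
  have h5 : ((Z P).card : ℝ) * (1 / b * (1 + 1 / b)) ≤ L * (1 / b * (1 + 1 / b)) :=
    mul_le_mul_of_nonneg_right (by linarith) (by positivity)
  linarith

theorem wt_ge (hr0 : 0 < r₀) {r : ℝ} (hra : r₀ ≤ r) (hrb : r ≤ R) : r₀ / (1 + R) ^ 2 ≤ wt r := by
  unfold wt
  have hr : 0 < r := lt_of_lt_of_le hr0 hra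
  have h7 : (1 + r) ^ 2 ≤ (1 + R) ^ 2 := pow_le_pow_left₀ (by linarith) (by linarith) 2
  exact div_le_div₀ hr.le hra (by positivity) h7

/-- **The variance**, from the decay at one small angle. -/
theorem var_geV (hA : AdmU b T κ r₀) (hR : 1 ≤ R) : ∃ δ₁ : ℝ, 0 < δ₁ ∧ ∀ δ : ℝ, δ ≤ δ₁ → ∀ (L : ℕ) (P : ℝ[X]),
    HypV b T κ r₀ R δ L P → ∀ r : ℝ, r₀ ≤ r → r ≤ R → κ / 2 * L * wt r ≤ V P r := by
  obtain ⟨θ₂, hθ₂, K, hK, hlf⟩ := local_form (B := 1 / b) (by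
    rw [le_div_iff₀ hA.hb]
    linarith [hA.hb1])
  have hκ := hA.hκ
  have hb := hA.hb
  have hr0 := hA.hr0
  obtain ⟨B2, hB2⟩ : ∃ B2, B2 = 1 / b * (1 + 1 / b) := ⟨_, rfl⟩
  have hB20 : 0 < B2 := by rw [hB2]; positivity
  obtain ⟨w, hw⟩ : ∃ w, w = r₀ / (1 + R) ^ 2 := ⟨_, rfl⟩
  have hw0 : 0 < w := by rw [hw]; positivity
  obtain ⟨θ, hθ⟩ : ∃ θ, θ = min (min θ₂ 1) (κ * w / (16 * K * B2)) := ⟨_, rfl⟩
  have hθ0 : 0 < θ := by
    rw [hθ]
    refine lt_min (lt_min hθ₂ one_pos) (by positivity)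
  have hθ1 : θ ≤ θ₂ := by
    rw [hθ]
    exact (min_le_left _ _).trans (min_le_left _ _)
  have hθ2 : θ ≤ 1 := by
    rw [hθ]
    exact (min_le_left _ _).trans (min_le_right _ _)
  have hθ3 : θ * (16 * K * B2) ≤ κ * w := by
    rw [← le_div_iff₀ (by positivity), hθ]
    exact min_le_right _ _
  refine ⟨κ * w * θ ^ 2 / 16, by positivity, fun δ hδ L P h r hrr hrR => ?_⟩
  have hr : 0 < r := lt_of_lt_of_le hr0 hrr
  have hwr : w ≤ wt r := by rw [hw]; exact wt_ge hr0 hrr hrR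
  have hPr := h.toNice.eval_pos hr
  have hLn : (0 : ℝ) ≤ L := Nat.cast_nonneg L
  have hW : W P r ≤ B2 * L := by rw [hB2]; exact W_le_V hA h.toNice h.dist hr hrr
  obtain ⟨e, he1, he2⟩ := hlf L P h.toNice r hr (fun ρ hρ => norm_p_leV hA h.dist hr hrr hρ) θ
    (by rw [abs_of_pos hθ0]; exact hθ1)
  rw [abs_of_pos hθ0] at he1
  have hd := h.dec r θ hrr hrR (by
    rw [abs_of_pos hθ0]
    linarith [Real.pi_gt_three])
  rw [he2, norm_mul, Complex.norm_real, Real.norm_of_nonneg hPr.le, Complex.norm_exp, mul_comm] at hd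
  have hd2 := le_of_mul_le_mul_right hd hPr
  have hd3 := Real.exp_le_exp.1 hd2
  have hre : ((θ : ℂ) * (mean P r : ℂ) * Complex.I - (θ : ℂ) ^ 2 / 2 * (V P r : ℂ) + e).re =
      -(θ ^ 2 / 2 * V P r) + e.re := by
    have e1 : (θ : ℂ) ^ 2 / 2 * (V P r : ℂ) = ((θ ^ 2 / 2 * V P r : ℝ) : ℂ) := by
      push_cast
      ring
    have e2 : ((θ : ℂ) * (mean P r : ℂ) * Complex.I).re = 0 := by
      have : (θ : ℂ) * (mean P r : ℂ) * Complex.I = ((θ * mean P r : ℝ) : ℂ) * Complex.I := by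
        push_cast
        ring
      rw [this, Complex.re_ofReal_mul, Complex.I_re, mul_zero]
    rw [Complex.add_re, Complex.sub_re, e1, Complex.ofReal_re, e2]
    ring
  rw [hre] at hd3
  have hwr' : -‖e‖ ≤ e.re := (abs_le.1 (Complex.abs_re_le_norm _)).1
  have hcos := (abs_le.1 (Real.cos_bound (x := θ) (by rw [abs_of_pos hθ0]; exact hθ2))).2
  rw [abs_of_pos hθ0] at hcos
  obtain ⟨a, ha⟩ : ∃ a, a = κ * L * wt r := ⟨_, rfl⟩
  have ha0 : 0 ≤ a := by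
    have := wt_pos hr
    rw [ha]; positivity
  have haw : κ * w * L ≤ a := by
    rw [ha]
    calc κ * w * L = κ * L * w := by ring
      _ ≤ _ := mul_le_mul_of_nonneg_left hwr (by positivity)
  rw [← ha] at hd3
  have h5 : θ ^ 4 ≤ θ ^ 2 := pow_le_pow_of_le_one hθ0.le hθ2 (by norm_num)
  have h1 : θ ^ 2 / 2 * (7 / 8) ≤ 1 - Real.cos θ := by
    have : 0 ≤ θ ^ 2 := by positivity
    linarith
  have h2 : a * (θ ^ 2 / 2 * (7 / 8)) ≤ a * (1 - Real.cos θ) := mul_le_mul_of_nonneg_left h1 ha0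
  -- the third order term
  have h3 : ‖e‖ ≤ θ ^ 2 / 2 * (a / 8) := by
    have h31 : K * W P r * θ ^ 3 ≤ K * (B2 * L) * θ ^ 3 := by gcongr
    have h32 : K * (B2 * L) * θ ^ 3 = θ ^ 2 * L / 16 * (θ * (16 * K * B2)) := by ring
    have h33 : θ ^ 2 * L / 16 * (θ * (16 * K * B2)) ≤ θ ^ 2 * L / 16 * (κ * w) :=
      mul_le_mul_of_nonneg_left hθ3 (by positivity)
    have h34 : θ ^ 2 * L / 16 * (κ * w) = θ ^ 2 / 16 * (κ * w * L) := by ring
    have h35 : θ ^ 2 / 16 * (κ * w * L) ≤ θ ^ 2 / 16 * a := mul_le_mul_of_nonneg_left haw (by positivity)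
    linarith
  have h4 : δ * L ≤ θ ^ 2 / 2 * (a / 8) := by
    have h41 : δ * L ≤ κ * w * θ ^ 2 / 16 * L := mul_le_mul_of_nonneg_right hδ hLn
    have h42 : κ * w * θ ^ 2 / 16 * L = θ ^ 2 / 16 * (κ * w * L) := by ring
    have h43 : θ ^ 2 / 16 * (κ * w * L) ≤ θ ^ 2 / 16 * a := mul_le_mul_of_nonneg_left haw (by positivity)
    linarith
  have h6 : θ ^ 2 / 2 * (a / 2) ≤ θ ^ 2 / 2 * V P r := by
    have h61 : 0 ≤ θ ^ 2 * a := by positivity
    linarith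
  have h7 := le_of_mul_le_mul_left h6 (by positivity)
  calc κ / 2 * L * wt r = a / 2 := by rw [ha]; ring
    _ ≤ _ := h7

end

/-- **Large mean at a fixed large radius.** -/
theorem mean_largeV {b T κ r₀ : ℝ} (h : AdmU b T κ r₀) {ε : ℝ} (hε : 0 < ε) : ∃ R₁ : ℝ, 1 ≤ R₁ ∧ ∀ r : ℝ, R₁ ≤ r →
    ∀ (L : ℕ) (P : ℝ[X]), EVC.Nice L P → (∀ ρ ∈ EVC.Z P, ∀ r : ℝ, r₀ ≤ r → b * (r + ‖ρ‖) ≤ ‖(r : ℂ) - ρ‖) →
      (∀ ρ ∈ EVC.Z P, ‖ρ‖ ≤ T) → P.natDegree - ε * L ≤ mean P r := by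
  have hb := h.hb
  have hT := h.hT
  refine ⟨max 1 (T / (b * ε)), le_max_left _ _, ?_⟩
  intro r hr L P hN hdist hfar
  have hr1 : 1 ≤ r := (le_max_left _ _).trans hr
  have hr0 : 0 < r := by linarith
  have hr2 : T / (b * ε) ≤ r := (le_max_right _ _).trans hr
  have h1 := congrArg Complex.re (mean_eq hN hr0)
  rw [Complex.ofReal_re, re_sum_map] at h1
  have h2 : ∀ ρ ∈ Z P, 1 - ε ≤ (p r ρ).re := by
    intro ρ hρ
    have hd := hdist ρ hρ r (h.hr1.le.trans hr1)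
    have hn := norm_nonneg ρ
    have hpos : 0 < ‖(r : ℂ) - ρ‖ := lt_of_lt_of_le (by positivity) hd
    have hne : (r : ℂ) - ρ ≠ 0 := norm_pos_iff.1 hpos
    have e1 : p r ρ = 1 - (-ρ / ((r : ℂ) - ρ)) := by
      unfold p
      rw [eq_sub_iff_add_eq, ← add_div, ← sub_eq_add_neg, div_self hne]
    have h3 : ‖-ρ / ((r : ℂ) - ρ)‖ ≤ ε := by
      rw [norm_div, norm_neg, div_le_iff₀ hpos]
      have h4 : ε * (b * (r + ‖ρ‖)) ≤ ε * ‖(r : ℂ) - ρ‖ := mul_le_mul_of_nonneg_left hd hε.le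
      refine le_trans ?_ h4
      have h5 : T ≤ r * (b * ε) := by rwa [div_le_iff₀ (by positivity)] at hr2
      have h6 : 0 ≤ ε * (b * ‖ρ‖) := by positivity
      have h7 := hfar ρ hρ
      nlinarith
    rw [e1, Complex.sub_re, Complex.one_re]
    have h5 := (le_abs_self _).trans ((Complex.abs_re_le_norm _).trans h3)
    linarith
  have h3 := Multiset.sum_map_le_sum_map _ _ h2
  rw [Multiset.map_const', Multiset.sum_replicate, nsmul_eq_mul, h1, card_Z] at h3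
  have h4 : 2 * (P.natDegree : ℝ) ≤ L := by exact_mod_cast hN.deg
  have h5 : (0 : ℝ) ≤ P.natDegree := Nat.cast_nonneg _
  nlinarith

/-- **The second coefficient from the top is linear.** -/
theorem sum_neg_geV {b T κ r₀ R : ℝ} (h : AdmU b T κ r₀) (hR : 40 * T ^ 2 / κ ≤ R) {L : ℕ} {P : ℝ[X]}
    (hP : HypW b T κ r₀ R L P) : κ / 8 * L ≤ ((Z P).map fun ρ => (-ρ).re).sum := by
  have hT := h.hT
  have hκ := h.hκ
  obtain ⟨r, hr⟩ : ∃ r, r = 40 * T ^ 2 / κ := ⟨_, rfl⟩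
  have hr40 : 40 * T ^ 2 ≤ r := by
    rw [hr, le_div_iff₀ hκ]
    have := h.hκ1
    nlinarith [sq_nonneg T]
  have hT2 : T ≤ T ^ 2 := by nlinarith
  have hr0 : 0 < r := by nlinarith
  have hr1 : 1 ≤ r := by nlinarith
  have hV1 := hP.var r (h.hr1.le.trans hr1) (by rw [hr]; exact hR)
  have e1 : V P r = ((Z P).map fun ρ => (p r ρ * (1 - p r ρ)).re).sum := by
    unfold V
    exact re_sum_map _ _
  have h1 : ∀ ρ ∈ Z P, r * (p r ρ * (1 - p r ρ)).re ≤ (-ρ).re + 10 * T ^ 2 / r := by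
    intro ρ hρ
    have h2 := top_root hT (r := r) (by nlinarith) (hP.far ρ hρ)
    have h3 := (le_abs_self _).trans ((Complex.abs_re_le_norm _).trans h2)
    rw [Complex.sub_re, Complex.re_ofReal_mul] at h3
    linarith
  have h2 := Multiset.sum_map_le_sum_map _ _ h1
  rw [Multiset.sum_map_mul_left, Multiset.sum_map_add, Multiset.map_const', Multiset.sum_replicate, nsmul_eq_mul,
    ← e1] at h2
  have h3 := card_Z_le hP.toNice
  have h4 : (Multiset.card (Z P) : ℝ) * (10 * T ^ 2 / r) ≤ (L : ℝ) / 2 * (10 * T ^ 2 / r) :=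
    mul_le_mul_of_nonneg_right (by linarith) (by positivity)
  have h5 : 10 * T ^ 2 / r = κ / 4 := by
    rw [hr]
    field_simp
    norm_num
  have h6 : 1 / 4 ≤ r * wt r := by
    unfold wt
    rw [← mul_div_assoc, div_le_div_iff₀ (by norm_num) (by positivity)]
    nlinarith
  have h7 : κ * L * (1 / 4) ≤ κ * L * (r * wt r) := mul_le_mul_of_nonneg_left h6 (by positivity)
  have h8 : r * (κ * L * wt r) ≤ r * V P r := mul_le_mul_of_nonneg_left hV1 hr0.le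
  rw [h5] at h4 h2
  have h9 : κ * L * (r * wt r) = r * (κ * L * wt r) := by ring
  linarith

/-- **Top coefficients.** -/
theorem top4V {b T κ r₀ R : ℝ} (h : AdmU b T κ r₀) (hR : 40 * T ^ 2 / κ ≤ R) {L : ℕ} (hL : 1 ≤ L) {P : ℝ[X]}
    (hP : HypW b T κ r₀ R L P) (k : ℕ) (hk : (P.natDegree : ℝ) ≤ k + dtop T κ * L) :
    P.coeff (k - 1) * P.coeff (k + 1) ≤ P.coeff k ^ 2 := by
  have hT := h.hT
  have hκ := h.hκ
  have hL0 : (0 : ℝ) < L := by exact_mod_cast hL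
  have h1 := sum_neg_geV h hR hP
  have h0 : P ≠ 0 := by
    rintro rfl
    have := hP.one
    simp at this
    linarith
  have hlead : 0 < P.leadingCoeff := lt_of_le_of_ne (hP.nn _) (Ne.symm (leadingCoeff_ne_zero.2 h0))
  have h2 : ((Z P).map fun ρ => (-ρ).re).sum ≤ P.natDegree * T := by
    have h3 : ∀ ρ ∈ Z P, (-ρ).re ≤ T := fun ρ hρ => by
      have h4 := (le_abs_self _).trans (Complex.abs_re_le_norm (-ρ))
      rw [norm_neg] at h4
      exact h4.trans (hP.far ρ hρ)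
    have h4 := Multiset.sum_map_le_sum_map _ _ h3
    rw [Multiset.map_const', Multiset.sum_replicate, nsmul_eq_mul, card_Z] at h4
    exact h4
  have hd1 : κ / (8 * T) * L ≤ P.natDegree := by
    rw [div_mul_eq_mul_div, div_le_iff₀ (by positivity)]
    nlinarith
  have hd0 : (0 : ℝ) < P.natDegree := lt_of_lt_of_le (by positivity) hd1
  have hd : 1 ≤ P.natDegree := by
    have : 0 < P.natDegree := by exact_mod_cast hd0
    omega
  have h3 := Pool.Agent.Helper74.EV2.second_coeff (P := P) hd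
  have h4 : P.coeff (P.natDegree - 1) = P.leadingCoeff * ((Z P).map fun ρ => (-ρ).re).sum := by
    have h5 := congrArg Complex.re h3
    rw [Complex.ofReal_re, Complex.neg_re, Complex.re_ofReal_mul] at h5
    have h6 : ((Pool.Agent.Helper74.EV2.rts P).sum).re = -((Z P).map fun ρ => (-ρ).re).sum := by
      have h7 := re_sum_map (Z P) (fun ρ => ρ)
      rw [Multiset.map_id'] at h7
      have h8 : ((Z P).map fun ρ => (-ρ).re) = ((Z P).map fun ρ => -(ρ.re)) := by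
        refine Multiset.map_congr rfl fun ρ _ => ?_
        rw [Complex.neg_re]
      have h9 : ∀ s : Multiset ℂ, (s.map fun ρ => -(ρ.re)).sum = -(s.map fun ρ => ρ.re).sum := by
        intro s
        induction s using Multiset.induction_on with
        | empty => simp
        | cons a s ih =>
          rw [Multiset.map_cons, Multiset.sum_cons, ih, Multiset.map_cons, Multiset.sum_cons, neg_add]
      rw [h8, h9, neg_neg]
      exact h7
    rw [h5, h6]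
    ring
  refine Pool.Agent.Helper74.EV2.top_of_roots (T := T) (c := κ / 4) hT (by positivity) (by linarith [h.hκ1]) P hlead
    (fun z hz => hP.far z hz) ?_ k ?_
  · rw [h4]
    have h5 : 2 * (P.natDegree : ℝ) ≤ L := by exact_mod_cast hP.deg
    calc κ / 4 * P.natDegree * P.leadingCoeff = P.leadingCoeff * (κ / 4 * P.natDegree) := by ring
      _ ≤ P.leadingCoeff * (κ / 8 * L) := by
        refine mul_le_mul_of_nonneg_left ?_ hlead.le
        nlinarith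
      _ ≤ _ := mul_le_mul_of_nonneg_left h1 hlead.le
  · refine hk.trans ?_
    have h5 : dtop T κ * L ≤ (κ / 4) ^ 2 / (32 * T ^ 2) * P.natDegree := by
      unfold dtop
      rw [mul_assoc]
      exact mul_le_mul_of_nonneg_left hd1 (by positivity)
    linarith

/-- **The bulk**: radii between `r₀` and `R`. -/
theorem bulkV {b T κ r₀ : ℝ} (hA : AdmU b T κ r₀) {R : ℝ} (hR : 1 ≤ R) : ∃ δ₂ : ℝ, 0 < δ₂ ∧ ∃ L₀ : ℕ,
    ∀ δ : ℝ, δ ≤ δ₂ → ∀ L : ℕ, L₀ ≤ L → ∀ P : ℝ[X], HypV b T κ r₀ R δ L P →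
      (∀ r : ℝ, r₀ ≤ r → r ≤ R → κ / 2 * L * wt r ≤ V P r) → ∀ r : ℝ, r₀ ≤ r → r ≤ R → ∀ k : ℕ, 1 ≤ k → mean P r = k →
      P.coeff (k - 1) * P.coeff (k + 1) < P.coeff k ^ 2 := by
  have hκ := hA.hκ
  have hb := hA.hb
  have hr0 := hA.hr0
  obtain ⟨θ₂, hθ₂, K, hK1, hlf⟩ := local_form (B := 1 / b) (by
    rw [le_div_iff₀ hb]
    linarith [hA.hb1])
  obtain ⟨B2, hB2⟩ : ∃ B2, B2 = 1 / b * (1 + 1 / b) := ⟨_, rfl⟩
  have hB20 : 0 < B2 := by rw [hB2]; positivity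
  obtain ⟨w, hw⟩ : ∃ w, w = r₀ / (1 + R) ^ 2 := ⟨_, rfl⟩
  have hw0 : 0 < w := by rw [hw]; positivity
  obtain ⟨C3, hC3⟩ : ∃ C3, C3 = K * (B2 / (κ / 2 * w)) := ⟨_, rfl⟩
  have hC30 : 0 < C3 := by rw [hC3]; positivity
  obtain ⟨θ₀, hθ₀⟩ : ∃ θ₀, θ₀ = min (min θ₂ 1) (1 / (4 * C3)) := ⟨_, rfl⟩
  have hθ0 : 0 < θ₀ := by rw [hθ₀]; exact lt_min (lt_min hθ₂ one_pos) (by positivity)
  have hθ1 : θ₀ ≤ θ₂ := by rw [hθ₀]; exact (min_le_left _ _).trans (min_le_left _ _)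
  have hθ2 : 4 * C3 * θ₀ ≤ 1 := by
    have h1 : θ₀ ≤ 1 / (4 * C3) := by rw [hθ₀]; exact min_le_right _ _
    rw [le_div_iff₀ (by positivity)] at h1
    linarith
  obtain ⟨g, hg⟩ : ∃ g, g = κ * w * θ₀ ^ 2 / 10 := ⟨_, rfl⟩
  have hg0 : 0 < g := by rw [hg]; positivity
  obtain ⟨V₀, hsad⟩ := saddle θ₀ C3 1 (g / B2) hθ0 hC30 one_pos (by positivity) hθ2
  obtain ⟨L₀, hL₀⟩ := exists_nat_ge (V₀ / (κ / 2 * w))
  refine ⟨g, hg0, L₀, fun δ hδ L hL P h hvar r hra hrb k hk hmean => ?_⟩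
  have hLR : (L₀ : ℝ) ≤ L := by exact_mod_cast hL
  have hLn : (0 : ℝ) ≤ L := Nat.cast_nonneg L
  have hr : 0 < r := lt_of_lt_of_le hr0 hra
  have hPr := h.toNice.eval_pos hr
  have hwr : w ≤ wt r := by rw [hw]; exact wt_ge hr0 hra hrb
  have hV : κ / 2 * w * L ≤ V P r := by
    refine le_trans ?_ (hvar r hra hrb)
    calc κ / 2 * w * L = κ / 2 * L * w := by ring
      _ ≤ _ := mul_le_mul_of_nonneg_left hwr (by positivity)
  have hW : W P r ≤ B2 * L := by rw [hB2]; exact W_le_V hA h.toNice h.dist hr hra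
  have hWV : W P r ≤ B2 / (κ / 2 * w) * V P r := by
    refine hW.trans ?_
    calc B2 * L = B2 / (κ / 2 * w) * (κ / 2 * w * L) := by field_simp
      _ ≤ _ := mul_le_mul_of_nonneg_left hV (by positivity)
  have hVL : V P r ≤ B2 * L := (V_le_W P r).trans hW
  have hV0 : V₀ ≤ V P r := by
    have h8 := hL₀.trans hLR
    rw [div_le_iff₀ (by positivity)] at h8
    linarith
  refine hsad P h.nn k hk r (V P r) hr hV0 hPr ?_ ?_
  · intro x hx
    obtain ⟨w', hw1, hw2⟩ := hlf L P h.toNice r hr (fun ρ hρ => norm_p_leV hA h.dist hr hra hρ) x (hx.trans hθ1)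
    refine ⟨w', hw1.trans ?_, ?_⟩
    · have h2 : 0 ≤ |x| ^ 3 := by positivity
      calc K * W P r * |x| ^ 3 ≤ K * (B2 / (κ / 2 * w) * V P r) * |x| ^ 3 := by gcongr
        _ = C3 * V P r * |x| ^ 3 := by rw [hC3]; ring
    · rw [hw2, hmean]
      congr 2
      push_cast
      ring
  · intro x hx1 hx2
    refine (h.dec r x hra hrb hx2).trans ?_
    rw [one_mul]
    refine mul_le_mul_of_nonneg_right (Real.exp_le_exp.2 ?_) hPr.le
    have h1 := Helper92.EV.one_sub_cos_lower (abs_nonneg x) hx2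
    rw [Real.cos_abs, sq_abs] at h1
    have h20 : θ₀ ^ 2 ≤ x ^ 2 := by
      rw [← sq_abs x]
      exact pow_le_pow_left₀ hθ0.le hx1 2
    have h2 : θ₀ ^ 2 / 5 ≤ 1 - Real.cos x := by linarith
    have h3 : κ * L * w * (θ₀ ^ 2 / 5) ≤ κ * L * wt r * (1 - Real.cos x) := by
      refine mul_le_mul (mul_le_mul_of_nonneg_left hwr (by positivity)) h2 (by positivity) ?_
      have := wt_pos hr
      positivity
    have h4 : δ * L ≤ g * L := mul_le_mul_of_nonneg_right hδ hLn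
    have h5 : κ * L * w * (θ₀ ^ 2 / 5) = 2 * (g * L) := by rw [hg]; ring
    have h6 : g / B2 * V P r ≤ g * L := by
      calc g / B2 * V P r ≤ g / B2 * (B2 * L) := mul_le_mul_of_nonneg_left hVL (by positivity)
        _ = g * L := by field_simp
    linarith

/-- **The core.** All coefficients with index at least `ε L` are log-concave, if `log 4 ≤ ε log (1 / r₀)`. -/
theorem coreV (b T κ r₀ ε : ℝ) (hA : AdmU b T κ r₀) (hε : Real.log 4 ≤ ε * Real.log (1 / r₀)) :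
    ∃ R δ : ℝ, 1 ≤ R ∧ 0 < δ ∧ ∃ L₀ : ℕ, ∀ L : ℕ, L₀ ≤ L → ∀ P : ℝ[X], HypV b T κ r₀ R δ L P →
      ∀ k : ℕ, 1 ≤ k → ε * L ≤ k → P.coeff (k - 1) * P.coeff (k + 1) ≤ P.coeff k ^ 2 := by
  have hr0 := hA.hr0
  have hr1 := hA.hr1
  have hκ := hA.hκ
  have hlog : 0 < Real.log (1 / r₀) := Real.log_pos (by rw [lt_div_iff₀ hr0]; linarith)
  have hA' : AdmU b T (κ / 2) r₀ := ⟨hA.hb, hA.hb1, hA.hT, by linarith, by linarith [hA.hκ1], hr0, hr1⟩
  have hτ := dtop_posU hA'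
  obtain ⟨R₁, hR1, hlarge⟩ := mean_largeV hA' hτ
  obtain ⟨R, hR⟩ : ∃ R, R = max R₁ (40 * T ^ 2 / (κ / 2)) := ⟨_, rfl⟩
  have hRR : R₁ ≤ R := by rw [hR]; exact le_max_left _ _
  have hR2 : 40 * T ^ 2 / (κ / 2) ≤ R := by rw [hR]; exact le_max_right _ _
  have hRone : 1 ≤ R := hR1.trans hRR
  obtain ⟨δ₁, hδ₁, hvar⟩ := var_geV (R := R) hA hRone
  obtain ⟨δ₂, hδ₂, L₀, hL₀⟩ := bulkV hA hRone
  refine ⟨R, min δ₁ δ₂, hRone, lt_min hδ₁ hδ₂, max L₀ 1, fun L hL P hP k hk hkε => ?_⟩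
  have hLa : L₀ ≤ L := (le_max_left _ _).trans hL
  have hLc : 1 ≤ L := (le_max_right _ _).trans hL
  have hLn : (0 : ℝ) ≤ L := Nat.cast_nonneg L
  have hv := hvar _ (min_le_left _ _) L P hP
  have hPW : HypW b T (κ / 2) r₀ R L P := ⟨hP.toNice, hP.dist, hP.far, hP.up, hv⟩
  by_cases hk2 : (P.natDegree : ℝ) ≤ k + dtop T (κ / 2) * L
  · exact top4V hA' hR2 hLc hPW k hk2
  push Not at hk2
  have h1 := mean_log_le hP.toNice hP.up hr0
  have h2 := hlarge R hRR L P hP.toNice hP.dist hP.far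
  have h4 : mean P r₀ ≤ k := by
    refine le_trans ?_ hkε
    refine le_of_mul_le_mul_right (h1.trans ?_) hlog
    calc (L : ℝ) * Real.log 4 ≤ L * (ε * Real.log (1 / r₀)) := mul_le_mul_of_nonneg_left hε hLn
      _ = ε * L * Real.log (1 / r₀) := by ring
  have h5 : (k : ℝ) ≤ mean P R := by linarith
  obtain ⟨r, hr, hrk⟩ := intermediate_value_Icc (hr1.le.trans hRone) (mean_cont hP.toNice r₀ R hr0) ⟨h4, h5⟩
  exact (hL₀ _ (min_le_right _ _) L hLa P hP hv r hr.1 hr.2 k hk hrk).le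

end Pool.Agent.Helper8.UNI
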