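import Pool.Agent.Helper8.UNI.CoreV
import Pool.Agent.Helper74.UNI.Inst

/-!
# UNI*: the final theorem for words, `L ≥ C (n + 1)` letters, indices at least `ord + ε L`
-/

set_option autoImplicit false

namespace Pool.Agent.Helper8.UNI

open Polynomial Matrix Pool.Agent.Helper76.Conway Pool.Agent.Helper76.Conway.Top Pool.Agent.Helper99.ZB
  Pool.Agent.Helper57.EV Pool.Agent.Helper57.EV2 Pool.Agent.Helper57.EV4 Pool.Agent.Helper74.EV4 Pool.Agent.Helper74.UNI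

/-- a bound at one point of the `z`-plane gives the bound of `half p` -/
theorem half_of {p : ℤ[X]} (hpar : ∀ j k, p.coeff j ≠ 0 → p.coeff k ≠ 0 → j % 2 = k % 2) (h0 : p ≠ 0) {r θ E : ℝ}
    (hr : 0 < r) (hθ : |θ| ≤ Real.pi)
    (dec : ∀ z : ℂ, z ≠ 0 → ‖z‖ ^ 2 = r → 2 * z.arg = θ → ‖aeval z p‖ ≤ E * aeval ‖z‖ p) :
      ‖aeval (EVC.pt r θ) (half p)‖ ≤ E * (half p).eval r := by
  -- `z = √r e^{iθ/2}`
  obtain ⟨z, hz⟩ : ∃ z : ℂ, z = (√r : ℂ) * Complex.exp ((θ / 2 : ℝ) * Complex.I) := ⟨_, rfl⟩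
  have hsr : 0 < √r := Real.sqrt_pos.2 hr
  have hnz : ‖z‖ = √r := by
    rw [hz, norm_mul, Complex.norm_exp_ofReal_mul_I, mul_one, Complex.norm_real, Real.norm_of_nonneg hsr.le]
  have hz0 : z ≠ 0 := by
    rw [← norm_pos_iff, hnz]
    exact hsr
  have hz2 : z ^ 2 = EVC.pt r θ := by
    unfold EVC.pt
    rw [hz, mul_pow, ← Complex.ofReal_pow, Real.sq_sqrt hr.le, ← Complex.exp_nat_mul]
    congr 2
    push_cast
    ring
  have hmem : θ / 2 ∈ Set.Ioc (-Real.pi) Real.pi := by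
    have h1 := abs_le.1 hθ
    have h2 := Real.pi_pos
    constructor <;> linarith [h1.1, h1.2]
  have harg : z.arg = θ / 2 := by
    rw [hz, Complex.exp_mul_I]
    exact_mod_cast Complex.arg_mul_cos_add_sin_mul_I hsr hmem
  have h1 := dec z hz0 (by rw [hnz, Real.sq_sqrt hr.le]) (by rw [harg, mul_div_cancel₀ _ (two_ne_zero)])
  rw [hnz, aeval_eq hpar h0, norm_mul, norm_pow, hnz, hz2] at h1
  have h2 : (aeval √r p : ℝ) = √r ^ p.natTrailingDegree * (half p).eval r := by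
    have h3 := aeval_eq hpar h0 ((√r : ℝ) : ℂ)
    have h4 : aeval ((√r : ℝ) : ℂ) p = ((aeval (√r) p : ℝ) : ℂ) := by
      rw [← Complex.coe_algebraMap, aeval_algebraMap_apply]
    have h5 : aeval (((√r : ℝ) : ℂ) ^ 2) (half p) = (((half p).eval r : ℝ) : ℂ) := by
      rw [← Complex.ofReal_pow, Real.sq_sqrt hr.le, ← Complex.coe_algebraMap, aeval_algebraMap_apply, coe_aeval_eq_eval]
    rw [h4, h5, ← Complex.ofReal_pow, ← Complex.ofReal_mul] at h3
    exact Complex.ofReal_injective h3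
  rw [h2] at h1
  have h3 : 0 < √r ^ p.natTrailingDegree := by positivity
  refine le_of_mul_le_mul_left ?_ h3
  calc √r ^ p.natTrailingDegree * ‖aeval (EVC.pt r θ) (half p)‖ ≤ _ := h1
    _ = _ := by ring

variable {G : ℕ → Type} [∀ n, Group (G n)] {sg : ∀ n, ℕ → G n} {N : ∀ n, G n → ℤ[X]}

/-- **The hypothesis of the core**, with the decay as an assumption. -/
theorem hypV_of (hNZ : NZ) (h : Mk G sg N) {n : ℕ} {w : List ℕ} (hw : ∀ a ∈ w, a < n)
    (hf : ∀ a < n, a ∈ w) (hne : w ≠ []) {r₀ R κ δ : ℝ} (hr0 : 0 < r₀)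
    (dec : ∀ r θ : ℝ, r₀ ≤ r → r ≤ R → |θ| ≤ Real.pi → ‖aeval (EVC.pt r θ) (half (N n (V (sg n) w)))‖ ≤
      Real.exp (δ * w.length - κ * w.length * Pool.Agent.Helper74.EV4.wt r * (1 - Real.cos θ)) *
        (half (N n (V (sg n) w))).eval r) :
    HypV (bU r₀) 8 κ r₀ R δ w.length (half (N n (V (sg n) w))) := by
  obtain ⟨p, hp⟩ : ∃ p, p = N n (V (sg n) w) := ⟨_, rfl⟩
  obtain ⟨h0, hpar', hnn, h1, hdeg, hev, -⟩ := word h hw hf hp
  have hpar : ∀ j k, p.coeff j ≠ 0 → p.coeff k ≠ 0 → j % 2 = k % 2 := by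
    intro j k hj hk
    have e1 : ¬ (j + (w.length - n)) % 2 = 1 := fun e => hj (hpar' j e)
    have e2 : ¬ (k + (w.length - n)) % 2 = 1 := fun e => hk (hpar' k e)
    omega
  have hall : ∀ ρ ∈ EVC.Z (half p), ∀ z : ℂ, z ^ 2 = ρ → aeval z p = 0 := by
    intro ρ hρ z hz
    have h2 : aeval ρ (half p) = 0 := by
      unfold EVC.Z at hρ
      have h3 := (mem_roots'.1 hρ).2
      rw [IsRoot.def, eval_map_algebraMap] at h3
      exact h3
    rw [hev z, hz, h2, mul_zero]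
  have hup : (half p).eval 1 ≤ 4 ^ w.length := by
    have h3 := hev 1
    have h4 : aeval (1 : ℂ) p = ((p.eval 1 : ℤ) : ℂ) := by
      have := aeval_algebraMap_apply (A := ℤ) (B := ℂ) (x := 1) (p := p)
      simpa using this
    have h5 : aeval ((1 : ℂ) ^ 2) (half p) = (((half p).eval 1 : ℝ) : ℂ) := by
      rw [one_pow, ← Complex.ofReal_one, ← Complex.coe_algebraMap, aeval_algebraMap_apply, coe_aeval_eq_eval]
    rw [h4, h5, one_pow, one_mul] at h3
    have h6 : (half p).eval 1 = ((p.eval 1 : ℤ) : ℝ) := by exact_mod_cast h3.symm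
    rw [h6]
    have h7 := eval_one_le' h n w hw
    rw [← hp] at h7
    have h8 : ((p.eval 1 : ℤ) : ℝ) ≤ 2 ^ w.length := by exact_mod_cast h7
    exact h8.trans (pow_le_pow_left₀ (by norm_num) (by norm_num) _)
  refine { toNice := ⟨?_, ?_, ?_⟩, dist := ?_, far := ?_, up := ?_, dec := dec }
  · rw [← hp]; exact hnn
  · rw [← hp]; exact h1
  · rw [← hp]; exact hdeg
  · intro ρ hρ r hr
    exact dist_of hNZ h hw hf hne hr0 (by rw [← hp]; exact hall) hρ hr
  · intro ρ hρ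
    obtain ⟨z, hz⟩ := IsAlgClosed.exists_pow_nat_eq ρ (n := 2) (by norm_num)
    rw [← hp] at hρ
    have h2 := hall ρ hρ z hz
    rw [hp] at h2
    have h3 := zero_bound_eight h hw hf h2
    rw [← hz, norm_pow]
    exact h3
  · rw [← hp]; exact hup

/-- The decay for all words, with an absolute rate `κ` and a prefactor that is exponential in the number of strands and
polynomial in the number of letters. -/
def DecD (sg : ∀ n, ℕ → G n) (N : ∀ n, G n → ℤ[X]) (κ : ℝ) : Prop := ∀ r₀ R : ℝ, 0 < r₀ → ∃ A : ℝ, 1 ≤ A ∧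
  ∀ (n : ℕ) (w : List ℕ), (∀ a ∈ w, a < n) → (∀ a < n, a ∈ w) → ∀ z : ℂ, r₀ ≤ ‖z‖ ^ 2 → ‖z‖ ^ 2 ≤ R →
    ‖aeval z (N n (V (sg n) w))‖ ≤ A ^ (n + 1) * (w.length + 1) ^ 2 *
      Real.exp (-(κ * w.length * wt (‖z‖ ^ 2) * (1 - Real.cos (2 * z.arg)))) * aeval ‖z‖ (N n (V (sg n) w))

/-- **Long positive braids with any number of strands**: at least `C` letters per strand, all indices at least `ord + ε L`. -/
theorem uniStar' (h : Mk G sg N) {κ : ℝ} (hκ : 0 < κ) (hD : DecD sg N κ) {ε : ℝ} (hε : 0 < ε) : ∃ C : ℕ,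
    ∀ (n : ℕ) (w : List ℕ), (∀ a ∈ w, a < n) → (∀ a < n, a ∈ w) → C * (n + 1) ≤ w.length →
    ∀ k : ℕ, ((N n (V (sg n) w)).natTrailingDegree : ℝ) + ε * w.length ≤ k + 2 →
      (N n (V (sg n) w)).coeff k * (N n (V (sg n) w)).coeff (k + 4) ≤ (N n (V (sg n) w)).coeff (k + 2) ^ 2 := by
  obtain ⟨κ', hκ'⟩ : ∃ κ' : ℝ, κ' = min κ 1 := ⟨_, rfl⟩
  have hκ0 : 0 < κ' := by rw [hκ']; exact lt_min hκ one_pos
  have hκ1 : κ' ≤ 1 := by rw [hκ']; exact min_le_right _ _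
  have hκ2 : κ' ≤ κ := by rw [hκ']; exact min_le_left _ _
  have hl4 : 0 < Real.log 4 := Real.log_pos (by norm_num)
  obtain ⟨r₀, hr₀⟩ : ∃ r₀ : ℝ, r₀ = Real.exp (-(2 * Real.log 4 / ε)) := ⟨_, rfl⟩
  have hr0 : 0 < r₀ := by rw [hr₀]; exact Real.exp_pos _
  have hr1 : r₀ < 1 := by
    rw [hr₀, Real.exp_lt_one_iff]
    have : 0 < 2 * Real.log 4 / ε := by positivity
    linarith
  have hA : AdmU (bU r₀) 8 κ' r₀ := ⟨bU_pos hr0, bU_le r₀, by norm_num, hκ0, hκ1, hr0, hr1⟩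
  have hlog : Real.log 4 ≤ ε / 2 * Real.log (1 / r₀) := by
    rw [one_div, Real.log_inv, hr₀, Real.log_exp, neg_neg]
    have : ε / 2 * (2 * Real.log 4 / ε) = Real.log 4 := by
      field_simp
    rw [this]
  obtain ⟨R, δ, hR, hδ, L₀, hL₀⟩ := coreV (bU r₀) 8 κ' r₀ (ε / 2) hA hlog
  obtain ⟨A, hA1, hdecA⟩ := hD r₀ R hr0
  -- the polynomial prefactor
  obtain ⟨L₁, hL₁⟩ : ∃ L₁ : ℕ, ∀ L : ℕ, L₁ ≤ L → ((L : ℝ) + 1) ^ 2 ≤ Real.exp (δ / 2 * L) := by
    obtain ⟨L₁, hL₁⟩ := exists_nat_ge (384 / (δ / 2) ^ 3 + 1)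
    refine ⟨L₁, fun L hL => ?_⟩
    have hLR : (L₁ : ℝ) ≤ L := by exact_mod_cast hL
    have h1 : 384 / (δ / 2) ^ 3 + 1 ≤ L := hL₁.trans hLR
    have h2 : 0 < 384 / (δ / 2) ^ 3 := by positivity
    have hL1 : (1 : ℝ) ≤ L := by linarith
    have h3 : 384 / (δ / 2) ^ 3 ≤ L := by linarith
    rw [div_le_iff₀ (by positivity)] at h3
    have h4 := Real.pow_div_factorial_le_exp (δ / 2 * L) (by positivity) 3
    have h5 : ((Nat.factorial 3 : ℕ) : ℝ) = 6 := by norm_num [Nat.factorial]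
    rw [h5] at h4
    refine le_trans ?_ h4
    rw [le_div_iff₀ (by norm_num), mul_pow]
    have h6 : ((L : ℝ) + 1) ^ 2 ≤ 4 * L ^ 2 := by nlinarith
    have h7 : (L : ℝ) * (δ / 2) ^ 3 * L ^ 2 = (δ / 2) ^ 3 * L ^ 3 := by ring
    have h8 : 384 * (L : ℝ) ^ 2 ≤ (L : ℝ) * (δ / 2) ^ 3 * L ^ 2 := mul_le_mul_of_nonneg_right h3 (by positivity)
    nlinarith [sq_nonneg (L : ℝ)]
  obtain ⟨C, hC⟩ := exists_nat_ge (Real.log A / (δ / 2))
  refine ⟨max (max C L₁) (max L₀ 1), fun n w hw hf hm k hk => ?_⟩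
  have hm' : max (max C L₁) (max L₀ 1) ≤ w.length := by nlinarith [Nat.zero_le n]
  have hmC : C * (n + 1) ≤ w.length :=
    (Nat.mul_le_mul_right _ ((le_max_left _ _).trans (le_max_left _ _))).trans hm
  have hmL1 : L₁ ≤ w.length := ((le_max_right _ _).trans (le_max_left _ _)).trans hm'
  have hm0 : L₀ ≤ w.length := ((le_max_left _ _).trans (le_max_right _ _)).trans hm'
  have hm1 : 1 ≤ w.length := ((le_max_right _ _).trans (le_max_right _ _)).trans hm'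
  have hne : w ≠ [] := by
    rintro rfl
    simp at hm1
  obtain ⟨p, hp⟩ : ∃ p, p = N n (V (sg n) w) := ⟨_, rfl⟩
  obtain ⟨h0, hpar', -⟩ := word h hw hf hp
  have hpar : ∀ j k, p.coeff j ≠ 0 → p.coeff k ≠ 0 → j % 2 = k % 2 := by
    intro j k hj hk
    have e1 : ¬ (j + (w.length - n)) % 2 = 1 := fun e => hj (hpar' j e)
    have e2 : ¬ (k + (w.length - n)) % 2 = 1 := fun e => hk (hpar' k e)
    omega
  have hnn : ∀ j, 0 ≤ p.coeff j := by
    intro j
    have h1 := h.pos n w hw j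
    rw [coeff_zero, ← hp] at h1
    exact h1
  have hLn : (0 : ℝ) ≤ w.length := Nat.cast_nonneg _
  have hpre : A ^ (n + 1) * ((w.length : ℝ) + 1) ^ 2 ≤ Real.exp (δ * w.length) := by
    have h1 : A ^ (n + 1) ≤ Real.exp (δ / 2 * w.length) := by
      rw [← Real.exp_log (by linarith : 0 < A), ← Real.exp_nat_mul, Real.exp_le_exp]
      have h2 : Real.log A ≤ C * (δ / 2) := by rwa [div_le_iff₀ (by positivity)] at hC
      have h3 : ((C * (n + 1) : ℕ) : ℝ) ≤ w.length := by exact_mod_cast hmC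
      push_cast at h3 ⊢
      have h4 : ((n : ℝ) + 1) * Real.log A ≤ (n + 1) * (C * (δ / 2)) := mul_le_mul_of_nonneg_left h2 (by positivity)
      have h5 : δ / 2 * (C * (n + 1)) ≤ δ / 2 * w.length := mul_le_mul_of_nonneg_left h3 (by positivity)
      linarith
    calc A ^ (n + 1) * ((w.length : ℝ) + 1) ^ 2 ≤ Real.exp (δ / 2 * w.length) * Real.exp (δ / 2 * w.length) :=
          mul_le_mul h1 (hL₁ _ hmL1) (by positivity) (Real.exp_pos _).le
      _ = Real.exp (δ * w.length) := by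
        rw [← Real.exp_add]
        congr 1
        ring
  have hhyp : HypV (bU r₀) 8 κ' r₀ R δ w.length (half (N n (V (sg n) w))) := by
    refine hypV_of nz h hw hf hne hr0 fun r θ hr hrR hθ => ?_
    rw [← hp]
    refine half_of hpar h0 (lt_of_lt_of_le hr0 hr) hθ fun z _ hz1 hz2 => ?_
    have h1 := hdecA n w hw hf z (by rw [hz1]; exact hr) (by rw [hz1]; exact hrR)
    rw [← hp, hz1, hz2] at h1
    have hpp : 0 ≤ aeval ‖z‖ p := by
      rw [aeval_eq_sum_range]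
      refine Finset.sum_nonneg fun j _ => ?_
      rw [zsmul_eq_mul]
      exact mul_nonneg (by exact_mod_cast hnn j) (by positivity)
    refine h1.trans (mul_le_mul_of_nonneg_right ?_ hpp)
    rw [sub_eq_add_neg (δ * _), Real.exp_add]
    refine mul_le_mul hpre (Real.exp_le_exp.2 (neg_le_neg ?_)) (Real.exp_pos _).le (Real.exp_pos _).le
    have h6 : 0 ≤ w.length * wt r * (1 - Real.cos θ) := by
      unfold wt
      have h7 := Real.cos_le_one θ
      have h8 := lt_of_lt_of_le hr0 hr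
      exact mul_nonneg (by positivity) (by linarith)
    nlinarith
  rw [← hp] at hk hhyp ⊢
  exact lc_from hpar h0 (fun j hj1 hj2 => hL₀ w.length hm0 (half p) hhyp j hj1 hj2) k (by linarith)

end Pool.Agent.Helper8.UNI
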