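import Pool.Agent.Helper8.UNI.FinalV
import Pool.Agent.Helper7.UNI.InstD

/-!
# UNI* for all positive words with at least `C` letters per strand, unconditional
-/

set_option autoImplicit false

namespace Pool.Agent.Helper8.UNI

open Polynomial Pool.Agent.Helper76.Conway.Top

variable {G : ℕ → Type} [∀ n, Group (G n)] {sg : ∀ n, ℕ → G n} {N : ∀ n, G n → ℤ[X]}

theorem exists_decD (h : Mk G sg N) : ∃ κ : ℝ, 0 < κ ∧ DecD sg N κ := by
  obtain ⟨κ, hκ, hD⟩ := Pool.Agent.Helper7.UNI.theoremD' h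
  refine ⟨κ, hκ, fun r₀ R hr0 => ?_⟩
  obtain ⟨A, hA, hA2⟩ := hD r₀ R hr0
  refine ⟨A, hA, fun n w hw hf z hz1 hz2 => ?_⟩
  have hz : z ≠ 0 := by
    rintro rfl
    rw [norm_zero] at hz1
    linarith
  refine (hA2 n w hw hf z hz hz1 hz2).trans ?_
  have hpp : 0 ≤ aeval ‖z‖ (N n (V (sg n) w)) := by
    rw [aeval_eq_sum_range]
    refine Finset.sum_nonneg fun j _ => ?_
    rw [zsmul_eq_mul]
    have h1 := h.pos n w hw j
    rw [coeff_zero] at h1
    exact mul_nonneg (by exact_mod_cast h1) (by positivity)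
  refine mul_le_mul_of_nonneg_right (mul_le_mul_of_nonneg_right ?_ (Real.exp_pos _).le) hpp
  have h1 : (1 : ℝ) ≤ ((w.length : ℝ) + 1) ^ 2 := by
    have : (0 : ℝ) ≤ w.length := Nat.cast_nonneg _
    nlinarith
  have h2 : 0 ≤ A ^ (n + 1) := by positivity
  nlinarith

/-- **Long positive braids with any number of strands**: for every `ε > 0` there is `C` such that all positive words in `n` generators,
all of which occur, with at least `C (n + 1)` letters satisfy the inequality at all indices at least `ord + ε L`. -/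
theorem uniStar (h : Mk G sg N) {ε : ℝ} (hε : 0 < ε) : ∃ C : ℕ,
    ∀ (n : ℕ) (w : List ℕ), (∀ a ∈ w, a < n) → (∀ a < n, a ∈ w) → C * (n + 1) ≤ w.length →
    ∀ k : ℕ, ((N n (V (sg n) w)).natTrailingDegree : ℝ) + ε * w.length ≤ k + 2 →
      (N n (V (sg n) w)).coeff k * (N n (V (sg n) w)).coeff (k + 4) ≤ (N n (V (sg n) w)).coeff (k + 2) ^ 2 := by
  obtain ⟨κ, hκ, hD⟩ := exists_decD h
  exact uniStar' h hκ hD hε

end Pool.Agent.Helper8.UNI
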