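import Pool.Agent.Helper8.UNI.Star
import Pool.Agent.Helper85.UNI.Fin

/-!
# UNI* for braids
-/

set_option autoImplicit false

namespace Pool.Agent.Helper8.UNI

open Polynomial Pool.Agent.Helper76.Conway.Top Pool.Agent.Helper85.UNI

/-- **UNI***, braid form: for every `ε > 0` there is `C` such that the Conway polynomial of the closure of every positive braid word on
`n + 1` strands with `L ≥ C (n + 1)` letters satisfies the inequality at all indices at least `j + ε L`, `j` any index with a nonzero
coefficient. -/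
theorem uniStar_braid {ε : ℝ} (hε : 0 < ε) : ∃ C : ℕ, ∀ nabla : ∀ n, Braid n → ℤ[X], IsConwayPolynomial nabla →
    ∀ (n : ℕ) (w : List (Fin n)), C * (n + 1) ≤ w.length →
      ∀ j k : ℤ, coeffX (nabla n (ofWord w)) (numComponents (ofWord w)) j ≠ 0 → (j : ℝ) + ε * w.length ≤ k →
        coeffX (nabla n (ofWord w)) (numComponents (ofWord w)) (k + 1) *
          coeffX (nabla n (ofWord w)) (numComponents (ofWord w)) (k - 1) ≤
            coeffX (nabla n (ofWord w)) (numComponents (ofWord w)) k ^ 2 := by
  obtain ⟨nabla₀, h₀, -⟩ := existsUnique_conway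
  obtain ⟨C, hC⟩ := uniStar (mk h₀) (ε := 2 * ε) (by positivity)
  refine ⟨C, fun nabla h n w hL j k hj hk => ?_⟩
  rw [nabla_eq h₀ h] at hj ⊢
  refine glue h₀ w (E := ε * w.length) (fun hf i hi => ?_) j k hj hk
  have h1 := hC n (w.map Fin.val) (gen_lt w) (fun a ha => List.mem_map.2 ⟨⟨a, ha⟩, hf _, rfl⟩)
    (by rw [List.length_map]; exact hL) i
  rw [V_gen, List.length_map] at h1
  exact h1 (by linarith)

end Pool.Agent.Helper8.UNI
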